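import Mathlib
import Pool.Agent.H964.LF.Stm

/-!
# Project LF: resampling the box around a coarse site
-/

set_option autoImplicit false

namespace Pool.Agent.H947.LF

open MeasureTheory Pool.Agent.H964.LF
open scoped ENNReal

namespace RES

/-! ### Geometry -/

theorem zt_add {d n : ℕ} (z z' : Fin d → ℤ) : (zt n (z + z') : Tor d n) = zt n z + zt n z' := by
  funext j
  simp only [zt, Pi.add_apply, Int.cast_add]

theorem zt_sub {d n : ℕ} (z z' : Fin d → ℤ) : (zt n (z - z') : Tor d n) = zt n z - zt n z' := by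
  funext j
  simp only [zt, Pi.sub_apply, Int.cast_sub]

theorem zt_zero {d n : ℕ} : (zt n (0 : Fin d → ℤ) : Tor d n) = 0 := by
  funext j
  simp only [zt, Pi.zero_apply, Int.cast_zero]

theorem zt_single {d n : ℕ} (i : Fin d) (m : ℤ) :
    (zt n (Pi.single i m) : Tor d n) = Pi.single i (m : ZMod (2 * n + 2)) := by
  funext j
  unfold zt
  rcases eq_or_ne j i with rfl | h
  · rw [Pi.single_eq_same, Pi.single_eq_same]
  · rw [Pi.single_eq_of_ne h, Pi.single_eq_of_ne h, Int.cast_zero]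

/-- unit vectors -/
def ee {d : ℕ} (a : Fin d × Bool) : Fin d → ℤ :=
  if a.2 then Pi.single a.1 1 else -Pi.single a.1 1

theorem nz_eq {d : ℕ} (z : Fin d → ℤ) (a : Fin d × Bool) : nz z a = z + ee a := by
  unfold nz ee
  split_ifs
  · rfl
  · rw [sub_eq_add_neg]

theorem nb_zt {d n : ℕ} (c : Tor d n) (z : Fin d → ℤ) (a : Fin d × Bool) :
    nb (c + zt n z) a = c + zt n (nz z a) := by
  unfold nb nz
  split_ifs
  · rw [zt_add, zt_single, Int.cast_one, add_assoc]
  · rw [zt_sub, zt_single, Int.cast_one, add_sub_assoc]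

theorem nb_nb {d n : ℕ} (v : Tor d n) (a : Fin d × Bool) : nb (nb v a) (a.1, !a.2) = v := by
  obtain ⟨i, b⟩ := a
  cases b
  · simp [nb]
  · simp [nb]

theorem l1_single {d : ℕ} (i : Fin d) (m : ℤ) : l1 (Pi.single i m) = |m| := by
  unfold l1
  rw [Finset.sum_eq_single i]
  · rw [Pi.single_eq_same]
  · intro j _ hj
    rw [Pi.single_eq_of_ne hj, abs_zero]
  · intro h
    exact absurd (Finset.mem_univ i) h

theorem l1_neg {d : ℕ} (z : Fin d → ℤ) : l1 (-z) = l1 z := by
  unfold l1
  simp only [Pi.neg_apply, abs_neg]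

theorem l1_add_le {d : ℕ} (z z' : Fin d → ℤ) : l1 (z + z') ≤ l1 z + l1 z' := by
  unfold l1
  rw [← Finset.sum_add_distrib]
  exact Finset.sum_le_sum fun j _ => abs_add_le _ _

theorem l1_ee {d : ℕ} (a : Fin d × Bool) : l1 (ee a) = 1 := by
  unfold ee
  split_ifs
  · rw [l1_single, abs_one]
  · rw [l1_neg, l1_single, abs_one]

theorem l1_nz_sub {d : ℕ} (z : Fin d → ℤ) (a b : Fin d × Bool) : l1 (nz z a - nz z b) ≤ 2 := by
  have h : nz z a - nz z b = ee a + -ee b := by
    rw [nz_eq, nz_eq]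
    abel
  rw [h]
  have h1 := l1_add_le (ee a) (-ee b)
  rw [l1_neg, l1_ee, l1_ee] at h1
  linarith

theorem l1_le_of_bx {d R : ℕ} {z : Fin d → ℤ} (h : bx R z) : l1 z ≤ d * R := by
  unfold l1
  have h1 := Finset.sum_le_sum (s := Finset.univ) fun (j : Fin d) _ => h j
  rw [Finset.sum_const, Finset.card_univ, Fintype.card_fin, nsmul_eq_mul] at h1
  exact h1

theorem ee_le {d : ℕ} (a : Fin d × Bool) (j : Fin d) : |ee a j| ≤ 1 := by
  have h1 := Finset.single_le_sum (f := fun j => |ee a j|) (fun i _ => abs_nonneg _)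
    (Finset.mem_univ j)
  have h2 := l1_ee a
  unfold l1 at h2
  linarith

theorem bx_nz {d R : ℕ} {z : Fin d → ℤ} (h : bx R z) (a : Fin d × Bool) : bx (R + 1) (nz z a) := by
  intro j
  rw [nz_eq, Pi.add_apply]
  have h1 := abs_add_le (z j) (ee a j)
  have h2 := ee_le a j
  have h3 := h j
  push_cast
  linarith

theorem bx_mono {d R R' : ℕ} (h : R ≤ R') {z : Fin d → ℤ} (hz : bx R z) : bx R' z := by
  intro j
  have h1 := hz j
  have h2 : (R : ℤ) ≤ R' := by exact_mod_cast h
  linarith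

theorem sum_ee {d : ℕ} (a : Fin d × Bool) : ∑ j, ee a j = 1 ∨ ∑ j, ee a j = -1 := by
  unfold ee
  split_ifs
  · left
    rw [Finset.sum_pi_single']
    simp
  · right
    simp only [Pi.neg_apply, Finset.sum_neg_distrib]
    rw [Finset.sum_pi_single']
    simp

theorem even_nz_nz {d : ℕ} {z : Fin d → ℤ} (h : Even (∑ j, z j)) (a b : Fin d × Bool) :
    Even (∑ j, nz (nz z a) b j) := by
  rw [nz_eq, nz_eq]
  simp only [Pi.add_apply, Finset.sum_add_distrib]
  rw [Int.even_iff] at h ⊢
  rcases sum_ee a with h1 | h1 <;> rcases sum_ee b with h2 | h2 <;> rw [h1, h2] <;> omega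

/-- the sum of a vector `single + ee` -/
theorem even_nz_single {d : ℕ} (i : Fin d) (s : ℕ) (a : Fin d × Bool) :
    Even (∑ j, nz (Pi.single i ((2 * s + 1 : ℕ) : ℤ)) a j) := by
  rw [nz_eq]
  simp only [Pi.add_apply, Finset.sum_add_distrib]
  rw [Finset.sum_pi_single', if_pos (Finset.mem_univ i), Int.even_iff]
  rcases sum_ee a with h1 | h1 <;> rw [h1] <;> push_cast <;> omega

/-! ### Parity -/

theorem par_add {d n : ℕ} (v w : Tor d n) : par (v + w) = par v + par w := by
  unfold par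
  simp only [Pi.add_apply, map_add, Finset.sum_add_distrib]

theorem par_zt {d n : ℕ} (z : Fin d → ℤ) : par (zt n z : Tor d n) = ((∑ j, z j : ℤ) : ZMod 2) := by
  unfold par zt
  rw [Int.cast_sum]
  exact Finset.sum_congr rfl fun j _ => map_intCast _ _

theorem ctr_eq {d n : ℕ} (τ : Tor d n) (K : ℕ) (k : Site d) :
    ctr τ K k = τ + zt n (fun i => (K : ℤ) * (k i : ℤ)) := by
  funext i
  unfold ctr zt
  rw [Pi.add_apply, Nat.cast_mul, Int.cast_mul, Int.cast_natCast, Int.cast_natCast]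

theorem par_ctr {d n : ℕ} {τ : Tor d n} {K J R : ℕ} (hc : Conf τ K J R) (k : Site d) :
    par (ctr τ K k) = 1 := by
  rw [ctr_eq, par_add, hc.hτ, par_zt]
  have h : (((∑ j, (K : ℤ) * (k j : ℤ) : ℤ)) : ZMod 2) = 0 := by
    rw [ZMod.intCast_zmod_eq_zero_iff_dvd]
    refine Finset.dvd_sum fun j _ => Dvd.dvd.mul_right ?_ _
    obtain ⟨c, hc'⟩ := hc.hK
    refine ⟨2 * c, ?_⟩
    rw [hc']
    push_cast
    ring
  rw [h, add_zero]

theorem par_iff {d n : ℕ} {τ : Tor d n} {K J R : ℕ} (hc : Conf τ K J R) (k : Site d)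
    (z : Fin d → ℤ) : par (ctr τ K k + zt n z) = 1 ↔ Even (∑ j, z j) := by
  rw [par_add, par_ctr hc, par_zt, add_eq_left, ZMod.intCast_zmod_eq_zero_iff_dvd, even_iff_two_dvd]
  exact Iff.rfl

/-- the map from a box to the torus is injective -/
theorem zt_inj {d n m : ℕ} {z z' : Fin d → ℤ} (hz : bx m z) (hz' : bx m z')
    (hm : 2 * m < 2 * n + 2) (h : (zt n z : Tor d n) = zt n z') : z = z' := by
  funext j
  have h1 := congrFun h j
  unfold zt at h1
  rw [ZMod.intCast_eq_intCast_iff_dvd_sub] at h1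
  have h2 : |z' j - z j| < ((2 * n + 2 : ℕ) : ℤ) := by
    have h3 := abs_sub (z' j) (z j)
    have h4 := hz j
    have h5 := hz' j
    have h6 : (2 * (m : ℤ)) < ((2 * n + 2 : ℕ) : ℤ) := by exact_mod_cast hm
    linarith
  have h3 := Int.eq_zero_of_abs_lt_dvd h1 h2
  linarith

/-- skeleton vertices in the box -/
theorem dvd_of_sk {d n : ℕ} {τ : Tor d n} {K J R : ℕ} (hc : Conf τ K J R) {k : Site d}
    (hk : k ∈ Grid d J) {z : Fin d → ℤ} (hz : bx (R + 2) z)
    (h : ctr τ K k + zt n z ∈ Sk τ K J) (j : Fin d) : (K : ℤ) ∣ z j := by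
  unfold Sk at h
  obtain ⟨k', hk', h1⟩ := Finset.mem_image.1 h
  have hkj : k j < 2 ^ J := Finset.mem_range.1 (Fintype.mem_piFinset.1 hk j)
  have hkj' : k' j < 2 ^ J := Finset.mem_range.1 (Fintype.mem_piFinset.1 hk' j)
  have h2 := congrFun h1 j
  rw [ctr_eq, ctr_eq] at h2
  simp only [Pi.add_apply, zt] at h2
  rw [add_assoc, add_right_inj, ← Int.cast_add, ZMod.intCast_eq_intCast_iff_dvd_sub] at h2
  have hs := hc.hs
  have hK := hc.hK0
  have h3 := hz j
  have a1 : (K : ℤ) * (k j : ℤ) ≤ K * 2 ^ J - K := by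
    have : (k j : ℤ) ≤ 2 ^ J - 1 := by
      have : (k j : ℤ) < 2 ^ J := by exact_mod_cast hkj
      linarith
    have h4 : (0 : ℤ) ≤ K := by positivity
    nlinarith
  have a2 : (K : ℤ) * (k' j : ℤ) ≤ K * 2 ^ J - K := by
    have : (k' j : ℤ) ≤ 2 ^ J - 1 := by
      have : (k' j : ℤ) < 2 ^ J := by exact_mod_cast hkj'
      linarith
    have h4 : (0 : ℤ) ≤ K := by positivity
    nlinarith
  have a3 : (0 : ℤ) ≤ (K : ℤ) * (k j : ℤ) := by positivity
  have a4 : (0 : ℤ) ≤ (K : ℤ) * (k' j : ℤ) := by positivity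
  have a5 : (K : ℤ) * 2 ^ J + 2 * R + 8 ≤ ((2 * n + 2 : ℕ) : ℤ) := by exact_mod_cast hs
  have a6 : (0 : ℤ) < K := by exact_mod_cast hK
  have h5 : |(K : ℤ) * (k j : ℤ) + z j - (K : ℤ) * (k' j : ℤ)| < ((2 * n + 2 : ℕ) : ℤ) := by
    have h6 := abs_le.1 h3
    push_cast at h6
    rw [abs_lt]
    constructor <;> linarith [h6.1, h6.2]
  have h7 := Int.eq_zero_of_abs_lt_dvd h2 h5
  refine ⟨(k' j : ℤ) - k j, ?_⟩
  linarith

/-! ### The allowed lengths -/

theorem len_ge {d n : ℕ} (hd : 1 ≤ d) (x : Tor d n → ℝ) (v : Tor d n) (c : ℝ)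
    (h : ∀ a b, x (nb v a) - x (nb v b) ≤ 2 - c) : c ≤ Len x v := by
  have : Nonempty (Fin d × Bool) := ⟨(⟨0, hd⟩, true)⟩
  obtain ⟨a, ha⟩ := exists_eq_ciSup_of_finite (f := fun a => x (nb v a))
  obtain ⟨b, hb⟩ := exists_eq_ciInf_of_finite (f := fun a => x (nb v a))
  unfold Len
  rw [← ha, ← hb]
  exact le_max_of_le_right (by linarith [h a b])

theorem len_congr {d n : ℕ} (x y : Tor d n → ℝ) (v : Tor d n)
    (h : ∀ a, x (nb v a) = y (nb v a)) : Len x v = Len y v := by
  unfold Len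
  simp only [h]

/-! ### The sets of vertices -/

open Classical in
/-- the vertices which are resampled -/
noncomputable def Y1 {d n : ℕ} (τ : Tor d n) (K J R : ℕ) (k : Site d) : Finset (Tor d n) :=
  (Yk τ K J).filter fun v => ∃ z : Fin d → ℤ, bx R z ∧ v = ctr τ K k + zt n z

open Classical in
/-- the even vertices with a neighbour which is resampled -/
noncomputable def N1 {d n : ℕ} (τ : Tor d n) (K J R : ℕ) (k : Site d) : Finset (Tor d n) :=
  (ev d n).filter fun v => ∃ a, nb v a ∈ Y1 τ K J R k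

theorem mem_Y1 {d n : ℕ} {τ : Tor d n} {K J R : ℕ} {k : Site d} {v : Tor d n} :
    v ∈ Y1 τ K J R k ↔ (par v = 1 ∧ v ∉ Sk τ K J) ∧
      ∃ z : Fin d → ℤ, bx R z ∧ v = ctr τ K k + zt n z := by
  classical
  unfold Y1 Yk od
  rw [Finset.mem_filter, Finset.mem_sdiff, Finset.mem_filter]
  simp only [Finset.mem_univ, true_and]

theorem card_Y1 {d n : ℕ} (τ : Tor d n) (K J R : ℕ) (k : Site d) :
    (Y1 τ K J R k).card ≤ (2 * R + 1) ^ d := by
  classical
  have h1 : Y1 τ K J R k ⊆ (Fintype.piFinset fun _ : Fin d => Finset.Icc (-(R : ℤ)) R).image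
      (fun z => ctr τ K k + zt n z) := by
    intro v hv
    obtain ⟨z, hz, h⟩ := (mem_Y1.1 hv).2
    refine Finset.mem_image.2 ⟨z, Fintype.mem_piFinset.2 fun j => ?_, h.symm⟩
    exact Finset.mem_Icc.2 (abs_le.1 (hz j))
  refine (Finset.card_le_card h1).trans (Finset.card_image_le.trans ?_)
  rw [Fintype.card_piFinset_const, Int.card_Icc]
  have h2 : ((R : ℤ) + 1 - -(R : ℤ)).toNat = 2 * R + 1 := by omega
  rw [h2]

theorem card_N1 {d n : ℕ} (τ : Tor d n) (K J R : ℕ) (k : Site d) :
    (N1 τ K J R k).card ≤ (Y1 τ K J R k).card * (2 * d) := by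
  classical
  have h1 : N1 τ K J R k ⊆ (Y1 τ K J R k).biUnion fun w =>
      Finset.univ.image (fun a : Fin d × Bool => nb w a) := by
    intro v hv
    unfold N1 at hv
    obtain ⟨-, a, ha⟩ := Finset.mem_filter.1 hv
    exact Finset.mem_biUnion.2 ⟨_, ha, Finset.mem_image.2 ⟨(a.1, !a.2), Finset.mem_univ _,
      nb_nb v a⟩⟩
  refine (Finset.card_le_card h1).trans (Finset.card_biUnion_le_card_mul _ _ _ fun w _ => ?_)
  refine Finset.card_image_le.trans ?_
  rw [Finset.card_univ, Fintype.card_prod, Fintype.card_fin, Fintype.card_bool]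
  omega

theorem nb_of_N1 {d n : ℕ} {τ : Tor d n} {K J R : ℕ} (hc : Conf τ K J R) {k : Site d}
    {v : Tor d n} (hv : v ∈ N1 τ K J R k) :
    ∃ z : Fin d → ℤ, (∀ b, nb v b = ctr τ K k + zt n (nz z b)) ∧ (∀ b, bx (R + 2) (nz z b)) ∧
      ∀ b, Even (∑ j, nz z b j) := by
  unfold N1 at hv
  rw [Finset.mem_filter] at hv
  obtain ⟨-, a, ha⟩ := hv
  obtain ⟨⟨hp, -⟩, z, hz, h⟩ := mem_Y1.1 ha
  have he : Even (∑ j, z j) := by
    rw [h] at hp
    exact (par_iff hc k z).1 hp
  have hv' : v = ctr τ K k + zt n (nz z (a.1, !a.2)) := by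
    rw [← nb_zt, ← h, nb_nb]
  refine ⟨nz z (a.1, !a.2), fun b => ?_, fun b => ?_, fun b => ?_⟩
  · rw [← nb_zt, ← hv']
  · exact bx_nz (bx_nz hz _) b
  · exact even_nz_nz he _ b

/-! ### The density -/

/-- the part of the density which does not depend on the resampled vertices -/
noncomputable def PP {d n : ℕ} (p τ : Tor d n) (K J R : ℕ) (k : Site d) (x : Tor d n → ℝ) :
    ℝ≥0∞ :=
  (∏ v ∈ ev d n \ N1 τ K J R k, ENNReal.ofReal (Len x v)) * (if |x p| ≤ 1 / 2 then 1 else 0)

theorem FF_split {d n : ℕ} {p τ : Tor d n} {K J R : ℕ} {k : Site d} (hp : p ∈ Sk τ K J)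
    (x X : Tor d n → ℝ) (h : ∀ v, v ∉ Y1 τ K J R k → X v = x v) :
    FF p X = (∏ v ∈ N1 τ K J R k, ENNReal.ofReal (Len X v)) * PP p τ K J R k x := by
  have hsub : N1 τ K J R k ⊆ ev d n := by
    unfold N1
    exact Finset.filter_subset _ _
  have hpY : p ∉ Y1 τ K J R k := fun h1 => (mem_Y1.1 h1).1.2 hp
  unfold FF PP
  rw [h p hpY, ← Finset.prod_sdiff hsub]
  have h2 : ∏ v ∈ ev d n \ N1 τ K J R k, ENNReal.ofReal (Len X v) =
      ∏ v ∈ ev d n \ N1 τ K J R k, ENNReal.ofReal (Len x v) := by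
    refine Finset.prod_congr rfl fun v hv => ?_
    rw [Finset.mem_sdiff] at hv
    rw [len_congr X x v]
    intro a
    refine h _ fun ha => hv.2 ?_
    unfold N1
    exact Finset.mem_filter.2 ⟨hv.1, a, ha⟩
  rw [h2]
  ring

/-! ### Measurability -/

theorem meas_Gd {d n : ℕ} (τ : Tor d n) (K : ℕ) (k : Site d) (δ δ0 : ℝ) (k0 R : ℕ) :
    MeasurableSet (Gd τ K k δ δ0 k0 R) := by
  have hA : ∀ (a b : Tor d n) (c : ℝ), Measurable fun x : Tor d n → ℝ => |x a - x b| ≤ c :=
    fun a b c => measurableSet_setOfPred.1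
      (measurableSet_le ((measurable_pi_apply a).sub (measurable_pi_apply b)).abs measurable_const)
  unfold Gd
  refine measurableSet_setOfPred.2 (Measurable.forall fun z => Measurable.forall fun z' => ?_)
  exact Measurable.imp measurable_const (Measurable.imp measurable_const
    (Measurable.imp measurable_const (Measurable.imp measurable_const
      ((hA _ _ _).and (Measurable.imp measurable_const (hA _ _ _))))))

theorem meas_Ext {d n : ℕ} (v : Tor d n) (a b : Fin d × Bool) :
    Measurable fun x : Tor d n → ℝ => Pool.Agent.H964.LF.Ext x v a b := by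
  have hA : ∀ (w w' : Tor d n), Measurable fun x : Tor d n → ℝ => x w + 1 / 16 ≤ x w' :=
    fun w w' => measurableSet_setOfPred.1
      (measurableSet_le ((measurable_pi_apply w).add_const _) (measurable_pi_apply w'))
  unfold Pool.Agent.H964.LF.Ext
  exact (Measurable.forall fun c => Measurable.imp measurable_const (hA _ _)).and
    (Measurable.forall fun c => Measurable.imp measurable_const (hA _ _))

theorem meas_Nev {d n : ℕ} (τ : Tor d n) (K : ℕ) (k : Site d) (i : Fin d) :
    MeasurableSet (Nev τ K k i) := by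
  unfold Nev
  exact measurableSet_setOfPred.2 (Measurable.forall fun s => Measurable.imp measurable_const
    ((meas_Ext _ _ _).or (meas_Ext _ _ _)))

/-! ### The resampling -/

theorem upd_mem {d n : ℕ} (x : Tor d n → ℝ) (s : Finset (Tor d n)) (y : s → ℝ) {v : Tor d n}
    (h : v ∈ s) : Function.updateFinset x s y v = y ⟨v, h⟩ := by
  unfold Function.updateFinset
  rw [dif_pos h]

theorem upd_not {d n : ℕ} (x : Tor d n → ℝ) (s : Finset (Tor d n)) (y : s → ℝ) {v : Tor d n}
    (h : v ∉ s) : Function.updateFinset x s y v = x v := by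
  unfold Function.updateFinset
  rw [dif_neg h]

theorem ctr_sk {d n : ℕ} {τ : Tor d n} {K J : ℕ} {k : Site d} (hk : k ∈ Grid d J) :
    ctr τ K k ∈ Sk τ K J := Finset.mem_image.2 ⟨k, hk, rfl⟩

/-- a configuration close to `u` -/
theorem close {d n : ℕ} {τ : Tor d n} {K J R : ℕ} (hc : Conf τ K J R) {k : Site d}
    (x : Tor d n → ℝ) (u : (Fin d → ℤ) → ℝ) (η : ℝ) (hη : 0 ≤ η)
    (hu : ∀ z : Fin d → ℤ, bx (R + 2) z → Even (∑ j, z j) →
      (ctr τ K k + zt n z ∈ Sk τ K J ∨ ¬ bx R z) → u z = x (ctr τ K k + zt n z))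
    (y : Y1 τ K J R k → ℝ)
    (hy : ∀ (v : Y1 τ K J R k) (z : Fin d → ℤ), bx R z → (v : Tor d n) = ctr τ K k + zt n z →
      |y v - u z| ≤ η) (z : Fin d → ℤ) (hz : bx (R + 2) z) (he : Even (∑ j, z j)) :
    |Function.updateFinset x (Y1 τ K J R k) y (ctr τ K k + zt n z) - u z| ≤ η := by
  by_cases h : ctr τ K k + zt n z ∈ Y1 τ K J R k
  · rw [upd_mem x _ y h]
    obtain ⟨z', hz', h1⟩ := (mem_Y1.1 h).2
    have h2 : z = z' := by
      refine zt_inj (m := R + 2) hz (bx_mono (by omega) hz') ?_ (add_left_cancel h1)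
      have := hc.hs
      have := Nat.zero_le (K * 2 ^ J)
      omega
    rw [← h2] at hz'
    exact hy ⟨_, h⟩ z hz' rfl
  · rw [upd_not x _ y h]
    have h1 : ctr τ K k + zt n z ∈ Sk τ K J ∨ ¬ bx R z := by
      by_contra hcon
      rw [not_or, not_not] at hcon
      exact h (mem_Y1.2 ⟨⟨(par_iff hc k z).2 he, hcon.1⟩, z, hcon.2, rfl⟩)
    rw [hu z hz he h1, sub_self, abs_zero]
    exact hη

/-- the comparison of the integrals over the resampled vertices -/
theorem key (hRG : S_RG) (hBAS : S_BAS) {d K R k0 : ℕ} {δ δ0 : ℝ} (hd : 1 ≤ d) (hK4 : 4 ∣ K) (hK0 : 0 < K)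
    (hδ : 0 < δ) (hδδ : δ ≤ δ0 / 2) (hδ0 : δ0 ≤ 1 / 8) (hKδ : 8 ≤ K * δ0) (hRδ : 20 * K ≤ R * δ0)
    (hk0 : k0 ≤ K) {n J : ℕ} {p τ : Tor d n} {k : Site d} (i : Fin d) (x : Tor d n → ℝ)
    (hc : Conf τ K J R) (hp : p ∈ Sk τ K J) (hk : k ∈ Grid d J) (hki : k i + 1 < 2 ^ J) :
    ENNReal.ofReal ((δ / 4 / (2 * (d * R) + 1)) ^ ((2 * R + 1) ^ d) *
        (δ / 2) ^ ((2 * R + 1) ^ d * (2 * d))) *
      mg (Y1 τ K J R k) ((Gd τ K k δ δ0 k0 R).indicator (FF p)) x ≤
      mg (Y1 τ K J R k) ((Nev τ K k i).indicator (FF p)) x := by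
  have hKR : K ≤ R := by
    have h1 : (0 : ℝ) ≤ R := Nat.cast_nonneg _
    have h2 : (R : ℝ) * δ0 ≤ R * (1 / 8) := mul_le_mul_of_nonneg_left hδ0 h1
    have h3 : (0 : ℝ) ≤ K := Nat.cast_nonneg _
    have h4 : (K : ℝ) ≤ R := by linarith
    exact_mod_cast h4
  by_cases hne : ∃ y0 : Y1 τ K J R k → ℝ,
      Function.updateFinset x (Y1 τ K J R k) y0 ∈ Gd τ K k δ δ0 k0 R
  · obtain ⟨y0, hy0⟩ := hne
    -- the lower bound
    have hs1 : bx (R + 2) (Pi.single i (K : ℤ) : Fin d → ℤ) := by
      intro j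
      rcases eq_or_ne j i with rfl | h
      · rw [Pi.single_eq_same, abs_of_nonneg (by positivity)]
        exact_mod_cast (by omega : K ≤ R + 2)
      · rw [Pi.single_eq_of_ne h, abs_zero]
        positivity
    have hs2 : ctr τ K k + zt n (Pi.single i (K : ℤ)) ∈ Sk τ K J := by
      have h1 : ctr τ K k + zt n (Pi.single i (K : ℤ)) = ctr τ K (sx k i) := by
        rw [ctr_eq, ctr_eq, add_assoc, ← zt_add]
        congr 2
        funext j
        simp only [Pi.add_apply, sx]
        rcases eq_or_ne j i with rfl | h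
        · rw [Pi.single_eq_same, Pi.single_eq_same]
          push_cast
          ring
        · rw [Pi.single_eq_of_ne h, Pi.single_eq_of_ne h]
          push_cast
          ring
      rw [h1]
      refine ctr_sk (Fintype.mem_piFinset.2 fun j => Finset.mem_range.2 ?_)
      simp only [sx, Pi.add_apply]
      rcases eq_or_ne j i with rfl | h
      · rw [Pi.single_eq_same]
        exact hki
      · rw [Pi.single_eq_of_ne h, add_zero]
        exact Finset.mem_range.1 (Fintype.mem_piFinset.1 hk j)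
    obtain ⟨u, hu1, hu2, hu3⟩ := hRG d i K R k0 δ δ0
      {z | bx (R + 2) z ∧ ctr τ K k + zt n z ∈ Sk τ K J}
      (fun z => Function.updateFinset x (Y1 τ K J R k) y0 (ctr τ K k + zt n z))
      hK4 hK0 hδ hδδ hδ0 hKδ hRδ hk0 (fun z hz j => dvd_of_sk hc hk hz.1 hz.2 j)
      ⟨fun j => by rw [Pi.zero_apply, abs_zero]; positivity,
        by rw [zt_zero, add_zero]; exact ctr_sk hk⟩
      ⟨hs1, hs2⟩ hy0
    have hu : ∀ z : Fin d → ℤ, bx (R + 2) z → Even (∑ j, z j) →
        (ctr τ K k + zt n z ∈ Sk τ K J ∨ ¬ bx R z) → u z = x (ctr τ K k + zt n z) := by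
      intro z hz he h
      have h1 : ctr τ K k + zt n z ∉ Y1 τ K J R k := by
        intro h2
        obtain ⟨⟨-, h3⟩, z', hz', h4⟩ := mem_Y1.1 h2
        rcases h with h | h
        · exact h3 h
        · refine h ?_
          have h5 : z = z' := by
            refine zt_inj (m := R + 2) hz (bx_mono (by omega) hz') ?_ (add_left_cancel h4)
            have := hc.hs
            have := Nat.zero_le (K * 2 ^ J)
            omega
          rw [h5]
          exact hz'
      rw [hu2 z hz he (h.imp (fun h2 => ⟨hz, h2⟩) id), upd_not x _ y0 h1]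
    have hch : ∀ v : Y1 τ K J R k, ∃ z : Fin d → ℤ, bx R z ∧ (v : Tor d n) = ctr τ K k + zt n z :=
      fun v => (mem_Y1.1 v.2).2
    choose zv hzv hzv' using hch
    have hclose : ∀ y : Y1 τ K J R k → ℝ, (∀ v, |y v - u (zv v)| ≤ δ / 8) →
        ∀ z : Fin d → ℤ, bx (R + 2) z → Even (∑ j, z j) →
          |Function.updateFinset x (Y1 τ K J R k) y (ctr τ K k + zt n z) - u z| ≤ δ / 8 := by
      intro y hy z hz he
      refine close hc x u (δ / 8) (by linarith) hu y (fun v z' hz' h1 => ?_) z hz he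
      have h2 : zv v = z' := by
        refine zt_inj (n := n) (m := R + 2) (bx_mono (by omega) (hzv v)) (bx_mono (by omega) hz')
          ?_ (add_left_cancel (a := ctr τ K k) ?_)
        · have := hc.hs
          have := Nat.zero_le (K * 2 ^ J)
          omega
        · rw [← hzv' v, h1]
      rw [← h2]
      exact hy v
    have hδ1 : δ ≤ 1 / 16 := by linarith
    obtain ⟨P, hP⟩ : ∃ P, P = PP p τ K J R k x := ⟨_, rfl⟩
    have hFF : ∀ y : Y1 τ K J R k → ℝ, FF p (Function.updateFinset x (Y1 τ K J R k) y) =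
        (∏ v ∈ N1 τ K J R k, ENNReal.ofReal
          (Len (Function.updateFinset x (Y1 τ K J R k) y) v)) * P := by
      intro y
      rw [hP]
      exact FF_split hp x _ fun v hv => upd_not x _ y hv
    have hc0 : ctr τ K k ∉ Y1 τ K J R k := fun h => (mem_Y1.1 h).1.2 (ctr_sk hk)
    -- the upper bound
    have hup : mg (Y1 τ K J R k) ((Gd τ K k δ δ0 k0 R).indicator (FF p)) x ≤
        ENNReal.ofReal 2 ^ (N1 τ K J R k).card * P *
          ENNReal.ofReal (2 * (d * R)) ^ (Y1 τ K J R k).card := by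
      have h1 : mg (Y1 τ K J R k) ((Gd τ K k δ δ0 k0 R).indicator (FF p)) x =
          ∫⁻ y : Y1 τ K J R k → ℝ, (Gd τ K k δ δ0 k0 R).indicator (FF p)
            (Function.updateFinset x (Y1 τ K J R k) y) ∂(Measure.pi fun _ => volume) := rfl
      have h2 : ∫⁻ y : Y1 τ K J R k → ℝ, (Set.Icc (fun _ => x (ctr τ K k) - d * R)
          (fun _ => x (ctr τ K k) + d * R)).indicator
          (fun _ => ENNReal.ofReal 2 ^ (N1 τ K J R k).card * P) y ∂(Measure.pi fun _ => volume) =
          ENNReal.ofReal 2 ^ (N1 τ K J R k).card * P *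
          ENNReal.ofReal (2 * (d * R)) ^ (Y1 τ K J R k).card := by
        rw [lintegral_indicator_const measurableSet_Icc, ← volume_pi, Real.volume_Icc_pi,
          Finset.prod_const, Finset.card_univ, Fintype.card_coe]
        congr 3
        ring
      rw [h1, ← h2]
      refine lintegral_mono fun y => ?_
      by_cases hG : Function.updateFinset x (Y1 τ K J R k) y ∈ Gd τ K k δ δ0 k0 R
      · have hy : y ∈ Set.Icc (fun _ : Y1 τ K J R k => x (ctr τ K k) - d * R)
            (fun _ => x (ctr τ K k) + d * R) := by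
          have hb : ∀ v : Y1 τ K J R k, |y v - x (ctr τ K k)| ≤ d * R := by
            intro v
            have hev : Even (∑ j, zv v j) := by
              have h3 := (mem_Y1.1 v.2).1.1
              rw [hzv' v] at h3
              exact (par_iff hc k _).1 h3
            have h3 := (hG (zv v) 0 (bx_mono (by omega) (hzv v))
              (fun j => by rw [Pi.zero_apply, abs_zero]; positivity) hev (by simp)).1
            rw [zt_zero, add_zero, sub_zero, ← hzv' v, upd_mem x _ y v.2,
              upd_not x _ y hc0] at h3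
            have h4 : (l1 (zv v) : ℝ) ≤ d * R := by exact_mod_cast l1_le_of_bx (hzv v)
            have h5 : (0 : ℝ) ≤ (l1 (zv v) : ℝ) := by
              have h6 : 0 ≤ l1 (zv v) := Finset.sum_nonneg fun j _ => abs_nonneg _
              exact_mod_cast h6
            have h6 : (1 - δ) * (l1 (zv v) : ℝ) ≤ l1 (zv v) := by nlinarith
            exact h3.trans (h6.trans h4)
          exact ⟨fun v => by have := (abs_le.1 (hb v)).1; linarith,
            fun v => by have := (abs_le.1 (hb v)).2; linarith⟩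
        rw [Set.indicator_of_mem hG, Set.indicator_of_mem hy, hFF y]
        refine mul_le_mul_left ?_ P
        refine (Finset.prod_le_prod (fun _ _ => zero_le) fun v _ =>
          ENNReal.ofReal_le_ofReal ((hBAS d n hd).2.1 v _).2).trans ?_
        rw [Finset.prod_const]
      · rw [Set.indicator_of_notMem hG]
        exact zero_le
    -- the lower bound
    have hlo : ENNReal.ofReal δ ^ (N1 τ K J R k).card * P *
        ENNReal.ofReal (δ / 4) ^ (Y1 τ K J R k).card ≤
        mg (Y1 τ K J R k) ((Nev τ K k i).indicator (FF p)) x := by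
      have h1 : mg (Y1 τ K J R k) ((Nev τ K k i).indicator (FF p)) x =
          ∫⁻ y : Y1 τ K J R k → ℝ, (Nev τ K k i).indicator (FF p)
            (Function.updateFinset x (Y1 τ K J R k) y) ∂(Measure.pi fun _ => volume) := rfl
      have h2 : ∫⁻ y : Y1 τ K J R k → ℝ, (Set.Icc (fun v => u (zv v) - δ / 8)
          (fun v => u (zv v) + δ / 8)).indicator
          (fun _ => ENNReal.ofReal δ ^ (N1 τ K J R k).card * P) y ∂(Measure.pi fun _ => volume) =
          ENNReal.ofReal δ ^ (N1 τ K J R k).card * P *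
          ENNReal.ofReal (δ / 4) ^ (Y1 τ K J R k).card := by
        rw [lintegral_indicator_const measurableSet_Icc, ← volume_pi, Real.volume_Icc_pi]
        have h3 : ∀ v : Y1 τ K J R k, ENNReal.ofReal (u (zv v) + δ / 8 - (u (zv v) - δ / 8)) =
            ENNReal.ofReal (δ / 4) := fun v => by
          congr 1
          ring
        rw [Finset.prod_congr rfl fun v _ => h3 v, Finset.prod_const, Finset.card_univ,
          Fintype.card_coe]
      rw [h1, ← h2]
      refine lintegral_mono fun y => ?_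
      by_cases hy : y ∈ Set.Icc (fun v => u (zv v) - δ / 8) (fun v => u (zv v) + δ / 8)
      · have hy' : ∀ v, |y v - u (zv v)| ≤ δ / 8 := fun v => by
          have h3 := hy.1 v
          have h4 := hy.2 v
          simp only at h3 h4
          rw [abs_le]
          constructor <;> linarith
        have hX := hclose y hy'
        have hN : Function.updateFinset x (Y1 τ K J R k) y ∈ Nev τ K k i := by
          intro s hs
          have hmv : mv τ K k i s = ctr τ K k + zt n (Pi.single i ((2 * s + 1 : ℕ) : ℤ)) := by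
            unfold mv
            rw [zt_single, Int.cast_natCast]
          have hbs : bx (R + 1) (Pi.single i ((2 * s + 1 : ℕ) : ℤ) : Fin d → ℤ) := by
            intro j
            rcases eq_or_ne j i with rfl | h
            · rw [Pi.single_eq_same, abs_of_nonneg (by positivity)]
              exact_mod_cast (by omega : 2 * s + 1 ≤ R + 1)
            · rw [Pi.single_eq_of_ne h, abs_zero]
              positivity
          have hcl : ∀ c, |Function.updateFinset x (Y1 τ K J R k) y (nb (mv τ K k i s) c) -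
              u (nz (Pi.single i ((2 * s + 1 : ℕ) : ℤ)) c)| ≤ δ / 8 := by
            intro c
            rw [hmv, nb_zt]
            exact hX _ (bx_nz hbs c) (even_nz_single i s c)
          have hext : ∀ a b : Fin d × Bool,
              ExtZ u (Pi.single i ((2 * s + 1 : ℕ) : ℤ)) a b →
              Pool.Agent.H964.LF.Ext (Function.updateFinset x (Y1 τ K J R k) y)
                (mv τ K k i s) a b := by
            intro a b h
            refine ⟨fun c hca => ?_, fun c hcb => ?_⟩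
            · have h3 := h.1 c hca
              have h4 := abs_le.1 (hcl c)
              have h5 := abs_le.1 (hcl a)
              linarith [h4.2, h5.1]
            · have h3 := h.2 c hcb
              have h4 := abs_le.1 (hcl c)
              have h5 := abs_le.1 (hcl b)
              linarith [h4.1, h5.2]
          exact (hu3 s hs).imp (hext _ _) (hext _ _)
        rw [Set.indicator_of_mem hN, Set.indicator_of_mem hy, hFF y]
        refine mul_le_mul_left ?_ P
        have h3 : ∏ _v ∈ N1 τ K J R k, ENNReal.ofReal δ =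
            ENNReal.ofReal δ ^ (N1 τ K J R k).card := Finset.prod_const _
        rw [← h3]
        refine Finset.prod_le_prod (fun _ _ => zero_le) fun v hv => ENNReal.ofReal_le_ofReal ?_
        obtain ⟨z, hz1, hz2, hz3⟩ := nb_of_N1 hc hv
        refine len_ge hd _ v δ fun a b => ?_
        rw [hz1 a, hz1 b]
        have h4 := abs_le.1 (hX _ (hz2 a) (hz3 a))
        have h5 := abs_le.1 (hX _ (hz2 b) (hz3 b))
        have h6 := (abs_le.1 (hu1 _ _ (hz2 a) (hz2 b) (hz3 a) (hz3 b))).2
        have h7 : ((l1 (nz z a - nz z b) : ℤ) : ℝ) ≤ 2 := by exact_mod_cast l1_nz_sub z a b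
        have h8 : (1 - δ) * ((l1 (nz z a - nz z b) : ℤ) : ℝ) ≤ (1 - δ) * 2 :=
          mul_le_mul_of_nonneg_left h7 (by linarith)
        linarith [h4.2, h5.1]
      · rw [Set.indicator_of_notMem hy]
        exact zero_le
    -- the comparison of the constants
    have hcY := card_Y1 τ K J R k
    have hcN := card_N1 τ K J R k
    generalize (Y1 τ K J R k).card = a at *
    generalize (N1 τ K J R k).card = m at *
    have hm : m ≤ (2 * R + 1) ^ d * (2 * d) := hcN.trans (Nat.mul_le_mul_right _ hcY)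
    generalize (2 * R + 1) ^ d = M at *
    obtain ⟨D, hD⟩ : ∃ D : ℝ, D = d * R := ⟨_, rfl⟩
    rw [← hD] at hup ⊢
    have hD0 : 0 ≤ D := by rw [hD]; positivity
    have hc1 : 0 ≤ δ / 4 / (2 * D + 1) := by positivity
    have hc1' : δ / 4 / (2 * D + 1) ≤ 1 := by
      rw [div_le_one (by linarith)]
      linarith
    have hθ : (δ / 4 / (2 * D + 1)) ^ M * (δ / 2) ^ (M * (2 * d)) * (2 ^ m * (2 * D) ^ a) ≤
        δ ^ m * (δ / 4) ^ a := by
      have b1 : (δ / 4 / (2 * D + 1)) ^ M ≤ (δ / 4 / (2 * D + 1)) ^ a :=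
        pow_le_pow_of_le_one hc1 hc1' hcY
      have b2 : (δ / 2) ^ (M * (2 * d)) ≤ (δ / 2) ^ m :=
        pow_le_pow_of_le_one (by linarith) (by linarith) hm
      have b3 : (δ / 4 / (2 * D + 1)) ^ a * (2 * D) ^ a ≤ (δ / 4) ^ a := by
        rw [← mul_pow]
        refine pow_le_pow_left₀ (by positivity) ?_ a
        rw [div_mul_eq_mul_div, div_le_iff₀ (by linarith)]
        nlinarith
      have b4 : (δ / 2) ^ m * 2 ^ m = δ ^ m := by
        rw [← mul_pow]
        congr 1
        ring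
      calc (δ / 4 / (2 * D + 1)) ^ M * (δ / 2) ^ (M * (2 * d)) * (2 ^ m * (2 * D) ^ a)
          ≤ (δ / 4 / (2 * D + 1)) ^ a * (δ / 2) ^ m * (2 ^ m * (2 * D) ^ a) := by
            refine mul_le_mul_of_nonneg_right ?_ (by positivity)
            exact mul_le_mul b1 b2 (by positivity) (by positivity)
        _ = ((δ / 2) ^ m * 2 ^ m) * ((δ / 4 / (2 * D + 1)) ^ a * (2 * D) ^ a) := by ring
        _ ≤ δ ^ m * (δ / 4) ^ a := by
            rw [b4]
            exact mul_le_mul_of_nonneg_left b3 (by positivity)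
    have e1 : ENNReal.ofReal ((δ / 4 / (2 * D + 1)) ^ M * (δ / 2) ^ (M * (2 * d))) *
        (ENNReal.ofReal 2 ^ m * P * ENNReal.ofReal (2 * D) ^ a) =
        ENNReal.ofReal ((δ / 4 / (2 * D + 1)) ^ M * (δ / 2) ^ (M * (2 * d)) *
          (2 ^ m * (2 * D) ^ a)) * P := by
      rw [ENNReal.ofReal_mul (p := (δ / 4 / (2 * D + 1)) ^ M * (δ / 2) ^ (M * (2 * d)))
        (by positivity), ENNReal.ofReal_mul (p := (2 : ℝ) ^ m) (by positivity),
        ENNReal.ofReal_pow (by norm_num), ENNReal.ofReal_pow (by positivity)]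
      ring
    have e2 : ENNReal.ofReal (δ ^ m * (δ / 4) ^ a) * P =
        ENNReal.ofReal δ ^ m * P * ENNReal.ofReal (δ / 4) ^ a := by
      rw [ENNReal.ofReal_mul (by positivity), ENNReal.ofReal_pow (by positivity),
        ENNReal.ofReal_pow (by positivity)]
      ring
    calc ENNReal.ofReal ((δ / 4 / (2 * D + 1)) ^ M * (δ / 2) ^ (M * (2 * d))) *
          mg (Y1 τ K J R k) ((Gd τ K k δ δ0 k0 R).indicator (FF p)) x
        ≤ ENNReal.ofReal ((δ / 4 / (2 * D + 1)) ^ M * (δ / 2) ^ (M * (2 * d))) *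
          (ENNReal.ofReal 2 ^ m * P * ENNReal.ofReal (2 * D) ^ a) := mul_le_mul_right hup _
      _ = ENNReal.ofReal ((δ / 4 / (2 * D + 1)) ^ M * (δ / 2) ^ (M * (2 * d)) *
          (2 ^ m * (2 * D) ^ a)) * P := e1
      _ ≤ ENNReal.ofReal (δ ^ m * (δ / 4) ^ a) * P :=
          mul_le_mul_left (ENNReal.ofReal_le_ofReal hθ) P
      _ = ENNReal.ofReal δ ^ m * P * ENNReal.ofReal (δ / 4) ^ a := e2
      _ ≤ _ := hlo
  · have h0 : mg (Y1 τ K J R k) ((Gd τ K k δ δ0 k0 R).indicator (FF p)) x = 0 := by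
      have h1 : mg (Y1 τ K J R k) ((Gd τ K k δ δ0 k0 R).indicator (FF p)) x =
          ∫⁻ y : Y1 τ K J R k → ℝ, (Gd τ K k δ δ0 k0 R).indicator (FF p)
            (Function.updateFinset x (Y1 τ K J R k) y) ∂(Measure.pi fun _ => volume) := rfl
      rw [h1]
      refine (lintegral_congr fun y => ?_).trans lintegral_zero
      exact Set.indicator_of_notMem (fun h2 => hne ⟨y, h2⟩) _
    rw [h0, mul_zero]
    exact zero_le

end RES

theorem t_RES : S_RG → S_BAS → S_RES := by
  intro hRG hBAS d K R k0 δ δ0 hd hK4 hK0 hδ hδδ hδ0 hKδ hRδ hk0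
  refine ⟨(δ / 4 / (2 * (d * R) + 1)) ^ ((2 * R + 1) ^ d) *
    (δ / 2) ^ ((2 * R + 1) ^ d * (2 * d)), by positivity, ?_⟩
  intro n J p τ k i x hc hp hk hki
  have hsub : RES.Y1 τ K J R k ⊆ Yk τ K J := by
    classical
    unfold RES.Y1
    exact Finset.filter_subset _ _
  have hmF : Measurable (FF p) := (hBAS d n hd).2.2.1 p
  have hun : ∀ f : (Tor d n → ℝ) → ℝ≥0∞, Measurable f → mg (Yk τ K J) f =
      mg (Yk τ K J \ RES.Y1 τ K J R k) (mg (RES.Y1 τ K J R k) f) := by
    intro f hf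
    have h1 := lmarginal_union (fun _ : Tor d n => (volume : Measure ℝ)) f hf
      (Finset.sdiff_disjoint (s := RES.Y1 τ K J R k) (t := Yk τ K J))
    rw [Finset.sdiff_union_of_subset hsub] at h1
    exact h1
  rw [hun _ (hmF.indicator (RES.meas_Gd τ K k δ δ0 k0 R)),
    hun _ (hmF.indicator (RES.meas_Nev τ K k i))]
  refine le_trans ?_ (lmarginal_mono (fun x' => RES.key hRG hBAS hd hK4 hK0 hδ hδδ hδ0 hKδ hRδ
    hk0 i x' hc hp hk hki) x)
  exact lintegral_const_mul_le _ _

end Pool.Agent.H947.LF
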